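import Pool.Agent.H17.RX.Stm

/-!
# Crew RX, part KH (Khinchine for the Rademacher functions on `[0,1]`)
-/

set_option autoImplicit false

open MeasureTheory Filter Set

namespace Pool.Agent.H7.RX

open Pool.Agent.H17.RX

/-- the first Rademacher function, extended periodically -/
noncomputable def r0 (x : ℝ) : ℝ := if Int.fract x < 1 / 2 then 1 else -1

/-- the Rademacher functions -/
noncomputable def r (n : ℕ) (x : ℝ) : ℝ := r0 (2 ^ n * x)

theorem r0_meas : Measurable r0 := by
  unfold r0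
  exact Measurable.ite (measurableSet_lt measurable_fract measurable_const) measurable_const
    measurable_const

theorem r_meas (n : ℕ) : Measurable (r n) := r0_meas.comp (measurable_const_mul _)

theorem r_abs (n : ℕ) (x : ℝ) : |r n x| = 1 := by
  unfold r r0
  split_ifs <;> simp

theorem r_per (n : ℕ) (x : ℝ) : r n (x + 1) = r n x := by
  unfold r r0
  have h : (2 : ℝ) ^ n * (x + 1) = 2 ^ n * x + ((2 ^ n : ℕ) : ℝ) := by push_cast; ring
  rw [h, Int.fract_add_natCast]

theorem r_succ (n : ℕ) (x : ℝ) : r (n + 1) x = r n (2 * x) := by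
  unfold r
  rw [pow_succ, mul_assoc]

theorem r_zero_left {x : ℝ} (hx : x ∈ Ioo (0 : ℝ) (1 / 2)) : r 0 x = 1 := by
  unfold r r0
  rw [pow_zero, one_mul, Int.fract_eq_self.2 ⟨hx.1.le, by linarith [hx.2]⟩, if_pos hx.2]

theorem r_zero_right {x : ℝ} (hx : x ∈ Ioo (1 / 2 : ℝ) 1) : r 0 x = -1 := by
  unfold r r0
  rw [pow_zero, one_mul, Int.fract_eq_self.2 ⟨by linarith [hx.1], hx.2⟩,
    if_neg (by linarith [hx.1])]

theorem half_left (g : ℝ → ℝ) :
    ∫ x in (0 : ℝ)..(1 / 2), g (2 * x) = (1 / 2) * ∫ x in (0 : ℝ)..1, g x := by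
  rw [intervalIntegral.integral_comp_mul_left g two_ne_zero]
  norm_num

theorem half_right (g : ℝ → ℝ) (hg : Function.Periodic g 1) :
    ∫ x in (1 / 2 : ℝ)..1, g (2 * x) = (1 / 2) * ∫ x in (0 : ℝ)..1, g x := by
  rw [intervalIntegral.integral_comp_mul_left g two_ne_zero]
  have h := hg.intervalIntegral_add_eq 1 0
  norm_num at h ⊢
  exact h

/-- bounded and measurable -/
def BM (g : ℝ → ℝ) : Prop := Measurable g ∧ ∃ M, ∀ x, |g x| ≤ M

theorem BM.ii {g : ℝ → ℝ} (hg : BM g) (a b : ℝ) : IntervalIntegrable g volume a b := by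
  obtain ⟨h1, M, hM⟩ := hg
  rw [intervalIntegrable_iff]
  exact Measure.integrableOn_of_bounded (M := M) (by simp) h1.aestronglyMeasurable
    (Eventually.of_forall fun x => by simpa using hM x)

theorem split (F : ℝ → ℝ) (g1 g2 : ℝ → ℝ) (hF : BM F) (h1 : Function.Periodic g1 1)
    (h2 : Function.Periodic g2 1) (e1 : ∀ x, r 0 x = 1 → F x = g1 (2 * x))
    (e2 : ∀ x, r 0 x = -1 → F x = g2 (2 * x)) :
    ∫ x in (0 : ℝ)..1, F x =
      (1 / 2) * (∫ x in (0 : ℝ)..1, g1 x) + (1 / 2) * ∫ x in (0 : ℝ)..1, g2 x := by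
  rw [← intervalIntegral.integral_add_adjacent_intervals (hF.ii 0 (1 / 2)) (hF.ii (1 / 2) 1),
    ← half_left g1, ← half_right g2 h2]
  congr 1
  · exact intervalIntegral.integral_congr_Ioo_of_le (by norm_num)
      fun x hx => e1 x (r_zero_left hx)
  · exact intervalIntegral.integral_congr_Ioo_of_le (by norm_num)
      fun x hx => e2 x (r_zero_right hx)

theorem sum_bd (n : ℕ) (c : ℕ → ℝ) (x : ℝ) :
    |∑ i ∈ Finset.range n, c i * r i x| ≤ ∑ i ∈ Finset.range n, |c i| := by
  refine (Finset.abs_sum_le_sum_abs _ _).trans (Finset.sum_le_sum fun i _ => ?_)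
  rw [abs_mul, r_abs, mul_one]

theorem sum_meas (n : ℕ) (c : ℕ → ℝ) :
    Measurable fun x => ∑ i ∈ Finset.range n, c i * r i x :=
  Finset.measurable_sum _ fun i _ => (r_meas i).const_mul _

theorem exp_BM (n : ℕ) (c : ℕ → ℝ) :
    BM fun x => Real.exp (∑ i ∈ Finset.range n, c i * r i x) := by
  refine ⟨Real.measurable_exp.comp (sum_meas n c),
    Real.exp (∑ i ∈ Finset.range n, |c i|), fun x => ?_⟩
  rw [abs_of_pos (Real.exp_pos _)]
  exact Real.exp_le_exp.2 ((le_abs_self _).trans (sum_bd n c x))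

theorem exp_int (n : ℕ) : ∀ c : ℕ → ℝ,
    ∫ x in (0 : ℝ)..1, Real.exp (∑ i ∈ Finset.range n, c i * r i x) =
      ∏ i ∈ Finset.range n, Real.cosh (c i) := by
  induction n with
  | zero => intro c; simp
  | succ n ih =>
    intro c
    have hs : ∀ x, ∑ i ∈ Finset.range (n + 1), c i * r i x =
        c 0 * r 0 x + ∑ i ∈ Finset.range n, c (i + 1) * r i (2 * x) := by
      intro x
      rw [Finset.sum_range_succ', add_comm]
      congr 1
      exact Finset.sum_congr rfl fun i _ => by rw [r_succ]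
    have hp : ∀ a : ℝ, Function.Periodic (fun x => Real.exp a *
        Real.exp (∑ i ∈ Finset.range n, c (i + 1) * r i x)) 1 := by
      intro a x
      simp only [r_per]
    rw [split _ _ _ (exp_BM (n + 1) c) (hp (c 0)) (hp (-c 0))
      (fun x hx => by rw [hs, hx, mul_one, Real.exp_add])
      (fun x hx => by rw [hs, hx, mul_neg, mul_one, Real.exp_add]),
      intervalIntegral.integral_const_mul, intervalIntegral.integral_const_mul,
      ih fun i => c (i + 1), Finset.prod_range_succ', Real.cosh_eq (c 0)]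
    ring

theorem exp_le (n : ℕ) (c : ℕ → ℝ) :
    ∫ x in (0 : ℝ)..1, Real.exp (∑ i ∈ Finset.range n, c i * r i x) ≤
      Real.exp ((∑ i ∈ Finset.range n, c i ^ 2) / 2) := by
  rw [exp_int, Finset.sum_div, Real.exp_sum]
  exact Finset.prod_le_prod (fun i _ => (Real.cosh_pos _).le)
    fun i _ => Real.cosh_le_exp_half_sq _

theorem orth0 (n : ℕ) : ∫ x in (0 : ℝ)..1, r 0 x * r (n + 1) x = 0 := by
  have hF : BM fun x => r 0 x * r (n + 1) x :=
    ⟨(r_meas 0).mul (r_meas _), 1, fun x => by rw [abs_mul, r_abs, r_abs, mul_one]⟩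
  rw [split _ (r n) (fun x => -r n x) hF (r_per n) (fun x => by simp only [r_per])
    (fun x hx => by rw [hx, one_mul, r_succ]) (fun x hx => by rw [hx, neg_one_mul, r_succ]),
    intervalIntegral.integral_neg]
  ring

theorem orth_lt (m : ℕ) : ∀ k : ℕ, ∫ x in (0 : ℝ)..1, r m x * r (m + k + 1) x = 0 := by
  induction m with
  | zero =>
    intro k
    rw [zero_add]
    exact orth0 k
  | succ m ih =>
    intro k
    have hF : BM fun x => r (m + 1) x * r (m + 1 + k + 1) x :=
      ⟨(r_meas _).mul (r_meas _), 1, fun x => by rw [abs_mul, r_abs, r_abs, mul_one]⟩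
    have hp : Function.Periodic (fun x => r m x * r (m + k + 1) x) 1 := fun x => by
      simp only [r_per]
    have he : ∀ x, r (m + 1) x * r (m + 1 + k + 1) x =
        r m (2 * x) * r (m + k + 1) (2 * x) := by
      intro x
      rw [r_succ, ← r_succ (m + k + 1)]
      congr 2
      ring
    rw [split _ _ _ hF hp hp (fun x _ => he x) (fun x _ => he x), ih k]
    ring

theorem orth (m n : ℕ) (h : m ≠ n) : ∫ x in (0 : ℝ)..1, r m x * r n x = 0 := by
  rcases lt_or_gt_of_ne h with h | h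
  · obtain ⟨k, rfl⟩ := Nat.exists_eq_add_of_lt h
    exact orth_lt m k
  · obtain ⟨k, rfl⟩ := Nat.exists_eq_add_of_lt h
    have h2 : ∀ x, r (n + k + 1) x * r n x = r n x * r (n + k + 1) x := fun x => mul_comm _ _
    rw [intervalIntegral.integral_congr (g := fun x => r n x * r (n + k + 1) x) fun x _ => h2 x]
    exact orth_lt n k

theorem Icc_eq (f : ℝ → ℝ) : ∫ x in Icc (0 : ℝ) 1, f x = ∫ x in (0 : ℝ)..1, f x := by
  rw [intervalIntegral.integral_of_le zero_le_one, integral_Icc_eq_integral_Ioc]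

theorem rpow_le (p : ℝ) (hp : 1 ≤ p) (y : ℝ) :
    |y| ^ p ≤ p ^ p * (Real.exp y + Real.exp (-y)) := by
  have hp0 : 0 < p := by linarith
  have h1 : |y| / p ≤ Real.exp (|y| / p) := by linarith [Real.add_one_le_exp (|y| / p)]
  have h2 : |y| ≤ p * Real.exp (|y| / p) := by
    rw [div_le_iff₀ hp0] at h1
    linarith
  calc |y| ^ p ≤ (p * Real.exp (|y| / p)) ^ p := Real.rpow_le_rpow (abs_nonneg _) h2 hp0.le
    _ = p ^ p * Real.exp |y| := by
        rw [Real.mul_rpow hp0.le (Real.exp_pos _).le, ← Real.exp_mul, div_mul_cancel₀ _ hp0.ne']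
    _ ≤ p ^ p * (Real.exp y + Real.exp (-y)) := by
        refine mul_le_mul_of_nonneg_left ?_ (Real.rpow_nonneg hp0.le _)
        rcases abs_cases y with ⟨h, _⟩ | ⟨h, _⟩
        · rw [h]
          linarith [Real.exp_pos (-y)]
        · rw [h]
          linarith [Real.exp_pos y]

theorem unit_case (p : ℝ) (hp : 1 ≤ p) (n : ℕ) (c : ℕ → ℝ)
    (hc : ∑ i ∈ Finset.range n, c i ^ 2 = 1) :
    ∫ x in (0 : ℝ)..1, |∑ i ∈ Finset.range n, c i * r i x| ^ p ≤
      p ^ p * (2 * Real.exp (1 / 2)) := by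
  have hp0 : 0 < p := by linarith
  set S : ℝ → ℝ := fun x => ∑ i ∈ Finset.range n, c i * r i x with hS
  have hneg : ∀ x, -S x = ∑ i ∈ Finset.range n, (-c i) * r i x := by
    intro x
    rw [hS]
    simp only [neg_mul, Finset.sum_neg_distrib]
  have i1 : IntervalIntegrable (fun x => Real.exp (S x)) volume 0 1 := (exp_BM n c).ii 0 1
  have i2 : IntervalIntegrable (fun x => Real.exp (-S x)) volume 0 1 := by
    simp only [hneg]
    exact (exp_BM n fun i => -c i).ii 0 1
  have i3 : IntervalIntegrable (fun x => p ^ p * (Real.exp (S x) + Real.exp (-S x))) volume 0 1 :=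
    (i1.add i2).const_mul _
  have i0 : IntervalIntegrable (fun x => |S x| ^ p) volume 0 1 := by
    refine BM.ii ⟨((sum_meas n c).abs).pow_const p,
      (∑ i ∈ Finset.range n, |c i|) ^ p, fun x => ?_⟩ 0 1
    rw [abs_of_nonneg (Real.rpow_nonneg (abs_nonneg _) _)]
    exact Real.rpow_le_rpow (abs_nonneg _) (sum_bd n c x) hp0.le
  have e1 : ∫ x in (0 : ℝ)..1, Real.exp (S x) ≤ Real.exp (1 / 2) := by
    have := exp_le n c
    rwa [hc] at this
  have e2 : ∫ x in (0 : ℝ)..1, Real.exp (-S x) ≤ Real.exp (1 / 2) := by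
    simp only [hneg]
    have := exp_le n fun i => -c i
    simp only [neg_sq] at this
    rwa [hc] at this
  calc ∫ x in (0 : ℝ)..1, |S x| ^ p
      ≤ ∫ x in (0 : ℝ)..1, p ^ p * (Real.exp (S x) + Real.exp (-S x)) :=
        intervalIntegral.integral_mono_on zero_le_one i0 i3 fun x _ => rpow_le p hp (S x)
    _ = p ^ p * ((∫ x in (0 : ℝ)..1, Real.exp (S x)) + ∫ x in (0 : ℝ)..1, Real.exp (-S x)) := by
        rw [intervalIntegral.integral_const_mul, intervalIntegral.integral_add i1 i2]
    _ ≤ p ^ p * (2 * Real.exp (1 / 2)) := by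
        refine mul_le_mul_of_nonneg_left ?_ (Real.rpow_nonneg hp0.le _)
        linarith

theorem t_KH : S_KH := by
  refine ⟨r, r_meas, fun n x => r_abs n x, fun m n h => ?_, fun p hp => ?_⟩
  · rw [Icc_eq]
    exact orth m n h
  · have hp0 : 0 < p := by linarith
    refine ⟨p ^ p * (2 * Real.exp (1 / 2)), fun n c => ?_⟩
    rw [Icc_eq (fun x => |∑ i ∈ Finset.range n, c i * r i x| ^ p)]
    set σ := Real.sqrt (∑ i ∈ Finset.range n, c i ^ 2) with hσ
    have hs0 : 0 ≤ ∑ i ∈ Finset.range n, c i ^ 2 := Finset.sum_nonneg fun i _ => sq_nonneg _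
    rcases (Real.sqrt_nonneg (∑ i ∈ Finset.range n, c i ^ 2)).eq_or_lt' with h0 | h0
    · rw [← hσ] at h0
      have h1 : ∑ i ∈ Finset.range n, c i ^ 2 = 0 := (Real.sqrt_eq_zero hs0).1 h0
      have h2 : ∀ i ∈ Finset.range n, c i = 0 := by
        intro i hi
        have := (Finset.sum_eq_zero_iff_of_nonneg fun i _ => sq_nonneg (c i)).1 h1 i hi
        exact pow_eq_zero_iff (two_ne_zero) |>.1 this
      have h3 : ∀ x, ∑ i ∈ Finset.range n, c i * r i x = 0 := fun x =>
        Finset.sum_eq_zero fun i hi => by rw [h2 i hi, zero_mul]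
      simp only [h3, h0, abs_zero, Real.zero_rpow hp0.ne']
      simp
    · rw [← hσ] at h0
      have hsq : ∑ i ∈ Finset.range n, (c i / σ) ^ 2 = 1 := by
        simp only [div_pow]
        rw [← Finset.sum_div, hσ, Real.sq_sqrt hs0, div_self]
        intro h
        rw [hσ, h, Real.sqrt_zero] at h0
        exact lt_irrefl _ h0
      have hu := unit_case p hp n (fun i => c i / σ) hsq
      have he : ∀ x, |∑ i ∈ Finset.range n, c i * r i x| ^ p =
          σ ^ p * |∑ i ∈ Finset.range n, c i / σ * r i x| ^ p := by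
        intro x
        rw [← Real.mul_rpow h0.le (abs_nonneg _)]
        congr 1
        rw [← abs_of_pos h0, ← abs_mul, Finset.mul_sum, abs_of_pos h0]
        congr 1
        refine Finset.sum_congr rfl fun i _ => ?_
        field_simp
      simp only [he]
      rw [intervalIntegral.integral_const_mul, mul_comm]
      exact mul_le_mul_of_nonneg_right hu (Real.rpow_nonneg h0.le _)

end Pool.Agent.H7.RX
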